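import Pool.Agent.Helper89.Vol5.Goals

/-!
# MP_cd13d2_co : the determinant of five vectors, three of which have zero first coordinates
(packet V58-AX)
-/

set_option autoImplicit false

namespace Pool.Agent.Helper4.Vol5.PkAX

open Pool.Agent.Helper86.Poly Pool.Agent.Helper89.Vol5

/-- the determinant of three vectors -/
def d3 (a1 a2 a3 b1 b2 b3 c1 c2 c3 : ℝ) : ℝ :=
  a1 * (b2 * c3 - b3 * c2) - a2 * (b1 * c3 - b3 * c1) + a3 * (b1 * c2 - b2 * c1)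

theorem gram3 (a1 a2 a3 b1 b2 b3 c1 c2 c3 : ℝ) :
    d3 a1 a2 a3 b1 b2 b3 c1 c2 c3 ^ 2 ≤
      ((a1 ^ 2 + a2 ^ 2 + a3 ^ 2) * (b1 ^ 2 + b2 ^ 2 + b3 ^ 2) -
        (a1 * b1 + a2 * b2 + a3 * b3) ^ 2) * (c1 ^ 2 + c2 ^ 2 + c3 ^ 2) := by
  have key : ((a1 ^ 2 + a2 ^ 2 + a3 ^ 2) * (b1 ^ 2 + b2 ^ 2 + b3 ^ 2) -
        (a1 * b1 + a2 * b2 + a3 * b3) ^ 2) * (c1 ^ 2 + c2 ^ 2 + c3 ^ 2) -
      d3 a1 a2 a3 b1 b2 b3 c1 c2 c3 ^ 2 =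
      ((a3 * b1 - a1 * b3) * c3 - (a1 * b2 - a2 * b1) * c2) ^ 2 +
      ((a1 * b2 - a2 * b1) * c1 - (a2 * b3 - a3 * b2) * c3) ^ 2 +
      ((a2 * b3 - a3 * b2) * c2 - (a3 * b1 - a1 * b3) * c1) ^ 2 := by
    unfold d3
    ring
  nlinarith [sq_nonneg ((a3 * b1 - a1 * b3) * c3 - (a1 * b2 - a2 * b1) * c2),
    sq_nonneg ((a1 * b2 - a2 * b1) * c1 - (a2 * b3 - a3 * b2) * c3),
    sq_nonneg ((a2 * b3 - a3 * b2) * c2 - (a3 * b1 - a1 * b3) * c1)]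

theorem had3 (a1 a2 a3 b1 b2 b3 c1 c2 c3 : ℝ) :
    d3 a1 a2 a3 b1 b2 b3 c1 c2 c3 ^ 2 ≤
      (a1 ^ 2 + a2 ^ 2 + a3 ^ 2) * (b1 ^ 2 + b2 ^ 2 + b3 ^ 2) * (c1 ^ 2 + c2 ^ 2 + c3 ^ 2) := by
  refine (gram3 a1 a2 a3 b1 b2 b3 c1 c2 c3).trans ?_
  refine mul_le_mul_of_nonneg_right ?_ (by positivity)
  linarith [sq_nonneg (a1 * b1 + a2 * b2 + a3 * b3)]

theorem amgm (x y z : ℝ) (hx : 0 ≤ x) (hy : 0 ≤ y) (hz : 0 ≤ z) :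
    27 * (x * y * z) ≤ (x + y + z) ^ 3 := by
  have h : (x + y + z) ^ 3 - 27 * (x * y * z) =
      (x + y + z) * ((x - y) ^ 2 + (y - z) ^ 2 + (z - x) ^ 2) / 2 +
        3 * (x * (y - z) ^ 2 + y * (z - x) ^ 2 + z * (x - y) ^ 2) := by
    ring
  have h1 : 0 ≤ (x + y + z) * ((x - y) ^ 2 + (y - z) ^ 2 + (z - x) ^ 2) / 2 := by positivity
  have h2 : 0 ≤ 3 * (x * (y - z) ^ 2 + y * (z - x) ^ 2 + z * (x - y) ^ 2) := by positivity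
  linarith

theorem tetra (a1 a2 a3 b1 b2 b3 c1 c2 c3 : ℝ) :
    432 * d3 a1 a2 a3 b1 b2 b3 c1 c2 c3 ^ 2 ≤
      ((a1 ^ 2 + a2 ^ 2 + a3 ^ 2) + (b1 ^ 2 + b2 ^ 2 + b3 ^ 2) + (c1 ^ 2 + c2 ^ 2 + c3 ^ 2) +
        ((a1 - b1) ^ 2 + (a2 - b2) ^ 2 + (a3 - b3) ^ 2) +
        ((a1 - c1) ^ 2 + (a2 - c2) ^ 2 + (a3 - c3) ^ 2) +
        ((b1 - c1) ^ 2 + (b2 - c2) ^ 2 + (b3 - c3) ^ 2)) ^ 3 := by
  have h1 := had3 ((a1 - b1 - c1) / 2) ((a2 - b2 - c2) / 2) ((a3 - b3 - c3) / 2)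
    ((b1 - a1 - c1) / 2) ((b2 - a2 - c2) / 2) ((b3 - a3 - c3) / 2)
    ((c1 - a1 - b1) / 2) ((c2 - a2 - b2) / 2) ((c3 - a3 - b3) / 2)
  have h2 : d3 ((a1 - b1 - c1) / 2) ((a2 - b2 - c2) / 2) ((a3 - b3 - c3) / 2)
      ((b1 - a1 - c1) / 2) ((b2 - a2 - c2) / 2) ((b3 - a3 - c3) / 2)
      ((c1 - a1 - b1) / 2) ((c2 - a2 - b2) / 2) ((c3 - a3 - b3) / 2) =
      -(d3 a1 a2 a3 b1 b2 b3 c1 c2 c3) / 2 := by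
    unfold d3
    ring
  rw [h2] at h1
  have h3 := amgm (((a1 - b1 - c1) / 2) ^ 2 + ((a2 - b2 - c2) / 2) ^ 2 + ((a3 - b3 - c3) / 2) ^ 2)
    (((b1 - a1 - c1) / 2) ^ 2 + ((b2 - a2 - c2) / 2) ^ 2 + ((b3 - a3 - c3) / 2) ^ 2)
    (((c1 - a1 - b1) / 2) ^ 2 + ((c2 - a2 - b2) / 2) ^ 2 + ((c3 - a3 - b3) / 2) ^ 2)
    (by positivity) (by positivity) (by positivity)
  have h4 : ((a1 - b1 - c1) / 2) ^ 2 + ((a2 - b2 - c2) / 2) ^ 2 + ((a3 - b3 - c3) / 2) ^ 2 +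
    (((b1 - a1 - c1) / 2) ^ 2 + ((b2 - a2 - c2) / 2) ^ 2 + ((b3 - a3 - c3) / 2) ^ 2) +
    (((c1 - a1 - b1) / 2) ^ 2 + ((c2 - a2 - b2) / 2) ^ 2 + ((c3 - a3 - b3) / 2) ^ 2) =
      ((a1 ^ 2 + a2 ^ 2 + a3 ^ 2) + (b1 ^ 2 + b2 ^ 2 + b3 ^ 2) + (c1 ^ 2 + c2 ^ 2 + c3 ^ 2) +
        ((a1 - b1) ^ 2 + (a2 - b2) ^ 2 + (a3 - b3) ^ 2) +
        ((a1 - c1) ^ 2 + (a2 - c2) ^ 2 + (a3 - c3) ^ 2) +
        ((b1 - c1) ^ 2 + (b2 - c2) ^ 2 + (b3 - c3) ^ 2)) / 4 := by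
    ring
  rw [h4] at h3
  have h5 : (((a1 ^ 2 + a2 ^ 2 + a3 ^ 2) + (b1 ^ 2 + b2 ^ 2 + b3 ^ 2) + (c1 ^ 2 + c2 ^ 2 + c3 ^ 2) +
        ((a1 - b1) ^ 2 + (a2 - b2) ^ 2 + (a3 - b3) ^ 2) +
        ((a1 - c1) ^ 2 + (a2 - c2) ^ 2 + (a3 - c3) ^ 2) +
        ((b1 - c1) ^ 2 + (b2 - c2) ^ 2 + (b3 - c3) ^ 2)) / 4) ^ 3 =
      ((a1 ^ 2 + a2 ^ 2 + a3 ^ 2) + (b1 ^ 2 + b2 ^ 2 + b3 ^ 2) + (c1 ^ 2 + c2 ^ 2 + c3 ^ 2) +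
        ((a1 - b1) ^ 2 + (a2 - b2) ^ 2 + (a3 - b3) ^ 2) +
        ((a1 - c1) ^ 2 + (a2 - c2) ^ 2 + (a3 - c3) ^ 2) +
        ((b1 - c1) ^ 2 + (b2 - c2) ^ 2 + (b3 - c3) ^ 2)) ^ 3 / 64 := by
    ring
  rw [h5] at h3
  have h6 : (-(d3 a1 a2 a3 b1 b2 b3 c1 c2 c3) / 2) ^ 2 = d3 a1 a2 a3 b1 b2 b3 c1 c2 c3 ^ 2 / 4 := by
    ring
  rw [h6] at h1
  linarith

theorem nsq (u : E 5) (h0 : u 0 = 0) (h1 : u 1 = 0) : ‖u‖ ^ 2 = u 2 ^ 2 + u 3 ^ 2 + u 4 ^ 2 := by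
  rw [EuclideanSpace.norm_sq_eq, Fin.sum_univ_five, h0, h1]
  simp only [Real.norm_eq_abs, sq_abs]
  ring

theorem inn (u v : E 5) (h0 : u 0 = 0) (h1 : u 1 = 0) :
    inner ℝ u v = u 2 * v 2 + u 3 * v 3 + u 4 * v 4 := by
  rw [PiLp.inner_apply, Fin.sum_univ_five, h0, h1]
  simp
  ring

theorem dte (e e' e'' z t : E 5) (h0 : e 0 = 0) (h1 : e 1 = 0) (h0' : e' 0 = 0) (h1' : e' 1 = 0)
    (h0'' : e'' 0 = 0) (h1'' : e'' 1 = 0) :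
    dt e e' e'' z t = d3 (e 2) (e 3) (e 4) (e' 2) (e' 3) (e' 4) (e'' 2) (e'' 3) (e'' 4) *
      (z 0 * t 1 - z 1 * t 0) := by
  unfold dt d3
  rw [h0, h1, h0', h1', h0'', h1'']
  simp [Matrix.det_succ_row_zero, Fin.sum_univ_succ, Fin.succAbove]
  ring

theorem thm : G_AX := by
  intro e e' e'' h0 h1 h0' h1' h0'' h1''
  refine ⟨d3 (e 2) (e 3) (e 4) (e' 2) (e' 3) (e' 4) (e'' 2) (e'' 3) (e'' 4),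
    fun z t => dte e e' e'' z t h0 h1 h0' h1' h0'' h1'', ?_, ?_, ?_⟩
  · refine abs_le_of_sq_le_sq ?_ (by positivity)
    have h := had3 (e 2) (e 3) (e 4) (e' 2) (e' 3) (e' 4) (e'' 2) (e'' 3) (e'' 4)
    rw [← nsq e h0 h1, ← nsq e' h0' h1', ← nsq e'' h0'' h1''] at h
    have h2 : (‖e‖ * ‖e'‖ * ‖e''‖) ^ 2 = ‖e‖ ^ 2 * ‖e'‖ ^ 2 * ‖e''‖ ^ 2 := by ring
    rw [h2]
    exact h
  · have h := gram3 (e 2) (e 3) (e 4) (e' 2) (e' 3) (e' 4) (e'' 2) (e'' 3) (e'' 4)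
    rw [← nsq e h0 h1, ← nsq e' h0' h1', ← nsq e'' h0'' h1'', ← inn e e' h0 h1] at h
    exact h
  · have h := tetra (e 2) (e 3) (e 4) (e' 2) (e' 3) (e' 4) (e'' 2) (e'' 3) (e'' 4)
    have k1 := nsq (e - e') (by simp [h0, h0']) (by simp [h1, h1'])
    have k2 := nsq (e - e'') (by simp [h0, h0'']) (by simp [h1, h1''])
    have k3 := nsq (e' - e'') (by simp [h0', h0'']) (by simp [h1', h1''])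
    simp only [PiLp.sub_apply] at k1 k2 k3
    rw [← k1, ← k2, ← k3, ← nsq e h0 h1, ← nsq e' h0' h1', ← nsq e'' h0'' h1''] at h
    exact h

end Pool.Agent.Helper4.Vol5.PkAX
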